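import Pool.Agent.Lib.MP_b5021c_nt.IfaceE6
import Pool.Agent.Lib.MP_b5021c_nt.IfaceEV

/-!
# Board b5, stage 3: conclusion `∃ t, EeS t` from the results of the chapters
-/

namespace Pool.Agent.B5.H71.Ee

open Pool.Agent.B5
open Pool.Agent.MP_b5021c_nt (Eis)
open Pool.Agent.MP_b5021c_nt

/-- the exact bound in class `V` for `N ≥ 4`. -/
theorem vx6 (h : EvrS) : Vx6S := by
  intro N hN
  exact h.2.2.2 N hN

theorem ee (hcc : CcfS) (hev : EvrS) (hjq : Jq3S) (hjw : Jw3S) (hind : IndS) (hstp : StpS)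
    (heef : EefS) : ∃ t : ℝ, EeS t := by
  obtain ⟨t0, ht0⟩ := hcc
  refine ⟨max t0 (10 ^ 13) * Real.exp 100, ?_⟩
  have h1 : (10 : ℝ) ^ 13 ≤ max t0 (10 ^ 13) := le_max_right _ _
  refine heef _ (le_trans (by norm_num) h1) (hind _ h1 ?_ ?_ hjq ?_ ?_ hstp)
  · intro θ hθ
    exact ht0 θ (le_trans (le_max_left _ _) hθ)
  · intro x P L _ _ _ _ _ phi D hD hc
    have hx : 1 < x := hc.1
    exact H25.Bch.bdP_bc (by linarith) (hjq x) P L phi D hD hc
  · intro N hN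
    exact H25.Bch.bdV_bc (by linarith) (vx6 hev N hN)
  · intro N
    have h2 : (1 : ℝ) ≤ 2 * max 1 N + 4800 := by
      have := le_max_left (1 : ℝ) N
      linarith
    refine H25.Bch.bdV_bc h2 ?_
    intro P L _ _ _ _ _ phi D hD hc
    exact le_trans (hjw N P L phi D hD hc) (min_le_right _ _)

/-- The exact value of `m_k` for all large odd `k`. -/
theorem mex (h : ∃ t : ℝ, EeS t) (hm : MexS) : ∃ K : ℕ, ∀ k : ℕ, Odd k → K ≤ k →
    IsLeast (PSk k) ((((k : ℝ) + 1) + Real.sqrt (((k : ℝ) + 1) ^ 2 + 16)) / 4) := by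
  obtain ⟨t, ht⟩ := h
  obtain ⟨K, hK⟩ := exists_nat_ge (2 * t + 480000)
  refine ⟨K, fun k hk hk2 => hm t ht k hk ?_⟩
  have : (K : ℝ) ≤ k := by exact_mod_cast hk2
  linarith

end Pool.Agent.B5.H71.Ee
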