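import Pool.Agent.Lib.MP_b5021c_nt.IfaceE6

/-!
# Board b5, stage 3, rows E6_IND, E6_EEF: the real induction
-/

namespace Pool.Agent.B5.H71.Ind6

open Pool.Agent.B5
open Pool.Agent.MP_b5021c_nt (Eis)

theorem bdP_mono {O : Type} [CommRing O] [Coef O] {θ B B' : ℝ} (h : BdP O θ B) (hB : B ≤ B') :
    BdP O θ B' := by
  intro P L _ _ _ _ _ phi D hD hc
  exact le_trans (h P L phi D hD hc) hB

theorem eef : EefS := by
  intro t ht h θ hθ
  have he : (0 : ℝ) < Real.exp 100 := Real.exp_pos _
  have he1 : (1 : ℝ) ≤ Real.exp 100 := Real.one_le_exp (by norm_num)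
  have ht0 : (0 : ℝ) < t := by linarith
  have h1 : t ≤ θ := by nlinarith
  have h2 := h θ h1
  have h3 : Real.log t + 100 ≤ Real.log θ := by
    have h4 : Real.log (t * Real.exp 100) = Real.log t + 100 := by
      rw [Real.log_mul ht0.ne' he.ne', Real.log_exp]
    rw [← h4]
    exact Real.log_le_log (by positivity) hθ
  have h5 : eR t θ = 0 := by
    unfold eR
    apply max_eq_left
    linarith
  rw [h5, add_zero] at h2
  exact h2

theorem ind (hred : FpRedS) : IndS := by
  intro t ht hcc hp3 hc3 hv2 hv3 hstp
  have ht0 : (0 : ℝ) < t := by linarith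
  have key : ∀ (n : ℕ) (θ : ℝ), t ≤ θ → θ ≤ 3 * t + n / 4 →
      BdP ℤ θ (2 * (θ - 1 / θ) + eR t θ) := by
    intro n
    induction n with
    | zero =>
      intro θ h1 h2
      have hθ0 : 0 < θ := by linarith
      refine bdP_mono (H25.Bch.bdP_bc (by linarith) (hcc θ h1)) ?_
      have h3 : Real.log θ ≤ Real.log t + Real.log 3 := by
        rw [← Real.log_mul ht0.ne' (by norm_num)]
        apply Real.log_le_log hθ0
        simp only [Nat.cast_zero, zero_div, add_zero] at h2
        linarith
      have h4 : Real.log 3 ≤ 3 - 1 := Real.log_le_sub_one_of_pos (by norm_num)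
      have h5 : 1 - (Real.log θ - Real.log t) / 100 ≤ eR t θ := le_max_right _ _
      have h6 : 1 / θ ≤ 1 / 1000 := one_div_le_one_div_of_le (by norm_num) (by linarith)
      linarith
    | succ n ih =>
      intro θ h1 h2
      rcases le_or_gt θ (3 * t + n / 4) with h | h
      · exact ih θ h1 h
      · intro P L _ _ _ _ _ phi D hD hc
        have hn : (0 : ℝ) ≤ n / 4 := by positivity
        have hθ0 : 0 < θ := by linarith
        have hE0 : 0 ≤ eR t θ := le_max_left _ _
        have h6 : 1 / θ ≤ 1 / 1000 := one_div_le_one_div_of_le (by norm_num) (by linarith)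
        rcases Nat.lt_or_ge (Module.finrank ℤ L) 4 with hr | hr
        · have : (Module.finrank ℤ L : ℝ) ≤ 3 := by exact_mod_cast Nat.lt_succ_iff.mp hr
          linarith
        · obtain ⟨P', L', i1, i2, i3, i4, i5, phi', D', hfp, hrk, hcl, _⟩ :=
            hred ℤ P L phi D hD (by omega) (Or.inr ⟨θ, hc⟩)
          have hyp : HypR θ (eR t θ) := by
            refine ⟨by linarith, hE0, ?_, ?_, hp3, hc3, hv2, hv3⟩
            · intro x hx1 hx2
              have hx0 : 0 < x := by linarith
              have hxt : t ≤ x := by linarith
              refine bdP_mono (ih x hxt (by push_cast at h2; linarith)) ?_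
              have h7 : Real.log (θ / x) = Real.log θ - Real.log x :=
                Real.log_div hθ0.ne' hx0.ne'
              have h8 : Real.log x ≤ Real.log θ := Real.log_le_log hx0 (by linarith)
              have h9 : eR t x ≤ eR t θ + Real.log (θ / x) / 100 := by
                rw [h7]
                apply max_le
                · have : 0 ≤ (Real.log θ - Real.log x) / 100 := by
                    apply div_nonneg <;> linarith
                  linarith
                · have h10 : 1 - (Real.log θ - Real.log t) / 100 ≤ eR t θ := le_max_right _ _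
                  linarith
              linarith
            · intro x hx
              exact hcc x (by linarith)
          have h7 := hstp P' L' phi' D' θ (eR t θ) hyp hfp (by rw [hrk]; exact hr) (hcl.2 θ hc)
          rw [hrk] at h7
          exact h7
  intro θ hθ
  obtain ⟨n, hn⟩ := exists_nat_ge (4 * (θ - 3 * t))
  exact key n θ hθ (by linarith)

end Pool.Agent.B5.H71.Ind6
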