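import Pool.Agent.Lib.MP_b5021c_nt.IfaceE6

/-!
# Board b5, stage 3, row E6_STP: the induction step of the real induction
-/

namespace Pool.Agent.B5.H71.Stp6

open scoped LaurentPolynomial
open Polynomial
open Pool.Agent.B5
open Pool.Agent.MP_b5021c_nt (Eis)
open Pool.Agent.MP_b5021c_nt.Ire (bc)
open Pool.Agent.B5.H25.Bch (bcR bc_co bcR_inj supp_bc dd_bc classV_bc)

theorem classV_typA {N' : ℝ} {Q V : RO ℤ} (h : TypA N' Q V) : ClassV N' V := by
  obtain ⟨n, q, e, -, hV, -, hN, hz⟩ := h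
  refine ⟨?_, n + 1, e, hV, hN, hz⟩
  have h0 := hz 0 (by simp)
  have h1 : e.coeff 0 ≠ 0 := by
    intro h2
    apply h0
    rw [← coeff_zero_eq_eval_zero, coeff_map, h2, map_zero]
  rw [← hN]
  have h3 : (Coef.emb (e.coeff 0) : ℂ) = ((e.coeff 0 : ℤ) : ℂ) := by
    exact (map_intCast (Coef.emb : ℤ →+* ℂ) (e.coeff 0))
  rw [h3, Complex.norm_intCast]
  have h4 : 1 ≤ |e.coeff 0| := Int.one_le_abs h1
  exact_mod_cast h4

/-- the designated load of a ray -/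
def Ld {L : Type} [AddCommGroup L] (D : AO ℤ L) (θ : ℝ) (S : L) (e : (RO ℤ)ˣ) : Prop :=
  (Gp θ (θ - 51 / 100) (D.coeff 0) (D.coeff S) e ∧ ¬ Car (D.coeff 0) ((e : RO ℤ) * D.coeff S) ∧
    TyB 0 (D.coeff 0) (D.coeff S) e) ∨
  (θ / 11 < M (D.coeff S) ∧ Gp θ (23 / 25 * θ + 7) (D.coeff 0) (D.coeff S) e) ∨
  (∃ (x : ℝ) (n : ℤ) (q f : ℤ[X]) (s r : ℂ[X]) (T c : ℂ),
    Md θ (D.coeff 0) (D.coeff S) e x n q f s r T c) ∨
  (∃ N' : ℝ, N' ≤ 98 / 100 * θ + 1 ∧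
    TypA N' (D.coeff 0) (D.coeff 0 + (e : RO ℤ) * D.coeff S))

theorem stp (he2 : E2S) (hmv : MVS) (hlr : Lr5S) (hzb : Zb5S) (hsl : Sl4S) (hbcd : BcdS)
    (hvhv : VhvS) (hhvy : HvyS) (htya : TyaS) (halp : AlpS) (hmed : MedS) : StpS := by
  intro P L _ _ _ _ _ phi D θ E hyp hfp hr4 hcls
  classical
  have hdd := hfp.dd
  obtain ⟨hz0, hthin, hwd, hprim, hrk, hray⟩ := he2 ℤ P L phi D hdd (by omega)
  have hθ : (1000000 : ℝ) ≤ θ := by linarith [hyp.big]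
  have hload : ∀ S, Ray D S → ∃ e : (RO ℤ)ˣ, Ld D θ S e := by
    intro S hS
    have hF : D.coeff S ≠ 0 := hS.1
    obtain ⟨hle, z, hz⟩ := hray S hS
    rcases hlr θ (D.coeff 0) (D.coeff S) hθ hcls hF hz0 hle ⟨z, hz⟩ with
      ⟨e, h1⟩ | ⟨h1, e, h2⟩ | ⟨e, h1⟩ | ⟨e, h1⟩
    · exact ⟨e, Or.inl h1⟩
    · exact ⟨e, Or.inr (Or.inl ⟨h1, h2⟩)⟩
    · exact ⟨e, Or.inr (Or.inr (Or.inl h1))⟩
    · exact ⟨e, Or.inr (Or.inr (Or.inr h1))⟩
  let eta : L → (RO ℤ)ˣ := fun S => if h : Ray D S then (hload S h).choose else 1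
  have heta : ∀ S, Ray D S → Ld D θ S (eta S) := by
    intro S hS
    have h1 : eta S = (hload S hS).choose := by simp only [eta, dif_pos hS]
    rw [h1]
    exact (hload S hS).choose_spec
  have hgp : ∀ (t : ℝ) (Q F : RO ℤ) (e : (RO ℤ)ˣ), Gp θ t Q F e → Q + (e : RO ℤ) * F ≠ 0 := by
    rintro t Q F e ⟨θ', -, -, h⟩
    exact ((hmv ℤ).2 _ _ h).1
  have hne : ∀ S, Ray D S → D.coeff 0 + (eta S : RO ℤ) * D.coeff S ≠ 0 := by
    intro S hS
    rcases heta S hS with ⟨h1, -, -⟩ | ⟨-, h1⟩ | ⟨x, n, q, f, s, r, T, c, h1⟩ | ⟨N', -, h1⟩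
    · exact hgp _ _ _ _ h1
    · exact hgp _ _ _ _ h1
    · exact hgp _ _ _ _ (hzb θ _ _ _ x n q f s r T c hθ h1).1
    · exact ((hmv ℤ).1 _ _ (classV_typA h1)).1
  obtain ⟨b1, b2, b3, b4, b5, b6, b7, b8, b9, b10, b11⟩ := hbcd P L phi D
  have hsum : ∀ (S : L) (e : (RO ℤ)ˣ), (bc D).coeff 0 + (bcU e : RO Eis) * (bc D).coeff S =
      bcR (D.coeff 0 + (e : RO ℤ) * D.coeff S) := by
    intro S e
    rw [bc_co, bc_co, map_add, map_mul]
    rfl
  obtain ⟨S, g, s1, s2, s3, s4, s5, s6, s7, s8, s9⟩ :=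
    hsl Eis P L phi (bc D) (fun S => bcU (eta S)) (dd_bc hdd (by omega)) (by omega) (by
      intro S hS
      rw [b1] at hS
      rw [hsum]
      exact (map_ne_zero_iff bcR bcR_inj).mpr (hne S hS))
  have hS : Ray D S := (b1 S).mp s1
  have hdrop : ∀ (i0 : P) (h : co phi i0 S = 1),
      Module.finrank ℤ L = rk (supp (cl (co phi i0) S h (eta S) D)) + 1 + g := by
    intro i0 h
    have h1 := s3 i0 h
    change Module.finrank ℤ L = rk (supp (cl (co phi i0) S h (bcU (eta S)) (bc D))) + 1 + g at h1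
    rw [b6, supp_bc] at h1
    exact h1
  have hmut : ∀ S0 S1 : L, Mut (bc D) S0 S1 (bcU (eta S0)) (bcU (eta S1)) →
      Mut D S0 S1 (eta S0) (eta S1) := fun S0 S1 h => (b5 S0 S1 _ _).mp h
  have hm4 : ((g : ℝ) - 1) * M (D.coeff S) ≤ M (D.coeff 0) := by
    rw [b8, b8] at s4
    exact s4
  rcases heta S hS with ⟨h1, h2, h3⟩ | ⟨h1, h2⟩ | ⟨x, n, q, f, s, r, T, c, h1⟩ | ⟨N', h1, h2⟩
  · exact hvhv P L phi D S θ E (eta S) g hyp hfp hr4 hcls hS h1 h2 h3 hdrop (by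
      intro hg
      obtain ⟨S1, h4⟩ := s7 hg
      exact ⟨S1, eta S1, hmut _ _ h4⟩)
  · exact hhvy P L phi D S θ E (eta S) g hyp hfp hr4 hcls hS h1 h2 hdrop hm4
  · rcases Nat.eq_zero_or_pos g with hg | hg
    · exact halp P L phi D S θ E (eta S) g x n q f s r T c hyp hfp hr4 hcls hS h1 hdrop (by omega)
        (by omega) (by omega)
    · exact hmed P L phi D eta S θ E g x n q f s r T c hyp hfp hr4 hcls hS h1 hdrop hg
        (s6 hg)
        (by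
          obtain ⟨S1, h4⟩ := s7 hg
          exact ⟨S1, hmut _ _ h4⟩)
        (by
          intro hg2
          obtain ⟨S1, S2, h4, h5, h6, h7⟩ := s8 hg2
          simp only [b4] at h6 h7
          exact ⟨S1, S2, hmut _ _ h4, hmut _ _ h5, h6, h7⟩)
        (by
          intro T hT hT2
          obtain ⟨h4, -, h5⟩ := s9 T ((b1 T).mpr hT) (by
            simp only [b4]
            exact hT2)
          refine ⟨hmut _ _ h4, ?_⟩
          intro T' hT' hT2'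
          exact hmut _ _ (h5 T' ((b1 T').mpr hT') (by
            simp only [b4]
            exact hT2')))
  · refine htya P L phi D S θ E (eta S) g N' hyp hfp hr4 hcls hS (by linarith) h2 hdrop ?_
    rcases s5 with h3 | h3
    · exact Or.inl h3
    · right
      change Real.sqrt 3 ^ (g + 1) ≤
        M ((bc D).coeff 0 + (bcU (eta S) : RO Eis) * (bc D).coeff S) at h3
      rw [hsum] at h3
      have h4 := classV_typA h2
      rw [((hmv Eis).1 _ _ (classV_bc h4)).2] at h3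
      rw [((hmv ℤ).1 _ _ h4).2]
      exact h3

end Pool.Agent.B5.H71.Stp6
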